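import Mathlib

/-!
# A topologically mixing subshift over the integers that is not surjunctive

The alphabet is `{0,1}³`; write a point as a triple `(A, B, C)` of binary sequences. The subshift
`X` consists of the triples such that there are no `n ∈ ℤ` and `k ≥ 1` with
`C(n - k) = B(n) = A(n + k) = 1`. The map `τ(A,B,C)(i) = (A(i+1), B(i), C(i-1))` is an injective
cellular automaton on `X` whose image misses the point whose only nonzero entry is `(1,1,1)` at
the origin.
-/

set_option autoImplicit false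

namespace Pool.Agent.Results.MP_451208_an.MixingNotSurjunctive

open Set

/-- The shift `σ(x)_n = x_{n+1}`. -/
def shift {A : Type} (x : ℤ → A) : ℤ → A := fun n => x (n + 1)

/-- A subshift over `ℤ`: a closed set `X ⊆ A^ℤ` with `σ(X) = X`. -/
def IsSubshift {A : Type} [TopologicalSpace A] (X : Set (ℤ → A)) : Prop :=
  IsClosed X ∧ shift '' X = X

/-- A cellular automaton on `X`: a continuous map `τ : X → X` commuting with the shift. -/
def IsCellularAutomaton {A : Type} [TopologicalSpace A] (X : Set (ℤ → A)) (τ : X → X) : Prop :=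
  Continuous τ ∧ ∀ x y : X, (y : ℤ → A) = shift (x : ℤ → A) →
    ((τ y : X) : ℤ → A) = shift ((τ x : X) : ℤ → A)

/-- `X` is surjunctive if every injective cellular automaton on `X` is surjective. -/
def Surjunctive {A : Type} [TopologicalSpace A] (X : Set (ℤ → A)) : Prop :=
  ∀ τ : X → X, IsCellularAutomaton X τ → Function.Injective τ → Function.Surjective τ

/-- `X` is topologically mixing: for all nonempty (relatively) open subsets `U ∩ X`, `V ∩ X`
of `X` there is `N` with `σ^n(U ∩ X) ∩ (V ∩ X) ≠ ∅` for all `n ≥ N`. -/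
def TopologicallyMixing {A : Type} [TopologicalSpace A] (X : Set (ℤ → A)) : Prop :=
  ∀ U V : Set (ℤ → A), IsOpen U → IsOpen V → (U ∩ X).Nonempty → (V ∩ X).Nonempty →
    ∃ N : ℕ, ∀ n : ℕ, N ≤ n → ((shift^[n] '' (U ∩ X)) ∩ (V ∩ X)).Nonempty

/-- The alphabet `{0,1}³`. -/
abbrev Al : Type := Bool × Bool × Bool

/-- The subshift. -/
def XX : Set (ℤ → Al) :=
  {x | ∀ (n : ℤ) (k : ℕ), 1 ≤ k →
    ¬ ((x (n - k)).2.2 = true ∧ (x n).2.1 = true ∧ (x (n + k)).1 = true)}

/-- The cellular automaton. -/
def tau (x : ℤ → Al) : ℤ → Al := fun i => ((x (i + 1)).1, (x i).2.1, (x (i - 1)).2.2)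

lemma shift_iter {A : Type} (n : ℕ) (x : ℤ → A) (i : ℤ) : (shift^[n] x) i = x (i + n) := by
  induction n generalizing x with
  | zero => simp
  | succ n ih =>
    rw [Function.iterate_succ_apply, ih]
    simp only [shift]
    congr 1
    push_cast
    ring

lemma isClosed_XX : IsClosed XX := by
  have hXX : XX = ⋂ (n : ℤ), ⋂ (k : ℕ), ⋂ (_ : 1 ≤ k), {x : ℤ → Al |
      ¬ ((x (n - k)).2.2 = true ∧ (x n).2.1 = true ∧ (x (n + k)).1 = true)} := by
    ext x
    simp only [XX, mem_setOf_eq, mem_iInter]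
  rw [hXX]
  refine isClosed_iInter fun n => isClosed_iInter fun k => isClosed_iInter fun _ => ?_
  have h : Continuous fun x : ℤ → Al => (x (n - k), x n, x (n + k)) := by fun_prop
  have hc : IsClosed {p : Al × Al × Al |
      ¬ (p.1.2.2 = true ∧ p.2.1.2.1 = true ∧ p.2.2.1 = true)} := isClosed_discrete _
  exact hc.preimage h

lemma shift_mem {x : ℤ → Al} (hx : x ∈ XX) (m : ℤ) : (fun i => x (i + m)) ∈ XX := by
  intro n k hk h
  refine hx (n + m) k hk ?_
  have h1 : n - k + m = n + m - k := by ring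
  have h2 : n + k + m = n + m + k := by ring
  simpa only [h1, h2] using h

lemma isSubshift_XX : IsSubshift XX := by
  refine ⟨isClosed_XX, Subset.antisymm ?_ ?_⟩
  · rintro _ ⟨x, hx, rfl⟩
    exact shift_mem hx 1
  · intro x hx
    refine ⟨fun i => x (i + (-1)), shift_mem hx (-1), ?_⟩
    funext i
    simp [shift]

lemma exists_window {U : Set (ℤ → Al)} (hU : IsOpen U) {x : ℤ → Al} (hx : x ∈ U) :
    ∃ m : ℕ, ∀ z : ℤ → Al, (∀ i : ℤ, |i| ≤ m → z i = x i) → z ∈ U := by
  obtain ⟨I, u, h1, h2⟩ := isOpen_pi_iff.1 hU x hx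
  refine ⟨I.sup Int.natAbs, fun z hz => h2 ?_⟩
  intro i hi
  have h3 : Int.natAbs i ≤ I.sup Int.natAbs := Finset.le_sup (f := Int.natAbs) hi
  have h4 : |i| ≤ (I.sup Int.natAbs : ℕ) := by
    rw [Int.abs_eq_natAbs]
    exact_mod_cast h3
  rw [hz i h4]
  exact (h1 i hi).2

lemma mixing_XX : TopologicallyMixing XX := by
  rintro U V hU hV ⟨x, hxU, hx⟩ ⟨y, hyV, hy⟩
  obtain ⟨m1, hm1⟩ := exists_window hU hxU
  obtain ⟨m2, hm2⟩ := exists_window hV hyV
  refine ⟨4 * (m1 + m2) + 1, fun n hn => ?_⟩
  let z : ℤ → Al := fun i => if |i| ≤ (m1 + m2 : ℤ) then x i else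
    if |i - n| ≤ (m1 + m2 : ℤ) then y (i - n) else (false, false, false)
  have hz : z ∈ XX := by
    rintro p k hk ⟨h1, h2, h3⟩
    simp only [z] at h1 h2 h3
    simp only [abs_le] at h1 h2 h3
    split_ifs at h1 h2 h3 with a1 a2 a3 a4 a5 a6 a7 a8 a9
    all_goals first
      | exact hx p k hk ⟨h1, h2, h3⟩
      | (exfalso; simp at h1; done)
      | (exfalso; simp at h2; done)
      | (exfalso; simp at h3; done)
      | (exfalso; omega)
      | skip
    all_goals
      refine hy (p - n) k hk ⟨?_, h2, ?_⟩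
      · rw [show p - n - (k : ℤ) = p - k - n by ring]; exact h1
      · rw [show p - n + (k : ℤ) = p + k - n by ring]; exact h3
  have hz1 : ∀ i : ℤ, |i| ≤ m1 → z i = x i := by
    intro i hi
    have : |i| ≤ (m1 + m2 : ℤ) := by
      have : (0 : ℤ) ≤ m2 := Int.natCast_nonneg _
      linarith
    simp only [z, if_pos this]
  have hz2 : ∀ i : ℤ, |i| ≤ m2 → (shift^[n] z) i = y i := by
    intro i hi
    rw [shift_iter]
    have h1 : ¬ |i + (n : ℤ)| ≤ (m1 + m2 : ℤ) := by
      rw [abs_le] at hi ⊢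
      omega
    have h2 : |i| ≤ (m1 + m2 : ℤ) := by
      have : (0 : ℤ) ≤ m1 := Int.natCast_nonneg _
      linarith
    simp only [z, if_neg h1, add_sub_cancel_right, if_pos h2]
  have hzn : shift^[n] z ∈ XX := by
    have h := shift_mem hz n
    have h2 : shift^[n] z = fun i => z (i + n) := funext fun i => shift_iter n z i
    rw [h2]
    exact h
  exact ⟨shift^[n] z, ⟨z, ⟨hm1 z hz1, hz⟩, rfl⟩, hm2 _ hz2, hzn⟩

lemma tau_mem {x : ℤ → Al} (hx : x ∈ XX) : tau x ∈ XX := by
  rintro n k hk ⟨h1, h2, h3⟩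
  simp only [tau] at h1 h2 h3
  refine hx n (k + 1) (by omega) ⟨?_, h2, ?_⟩
  · rw [show n - ((k + 1 : ℕ) : ℤ) = n - k - 1 by push_cast; ring]; exact h1
  · rw [show n + ((k + 1 : ℕ) : ℤ) = n + k + 1 by push_cast; ring]; exact h3

lemma continuous_tau : Continuous tau := by
  refine continuous_pi fun i => ?_
  have h : Continuous fun x : ℤ → Al => (x (i + 1), x i, x (i - 1)) := by fun_prop
  have hd : Continuous fun p : Al × Al × Al => ((p.1.1, p.2.1.2.1, p.2.2.2.2) : Al) :=
    continuous_of_discreteTopology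
  exact hd.comp h

/-- The point whose only nonzero entry is `(1,1,1)` at `0`. -/
def pt : ℤ → Al := fun i => if i = 0 then (true, true, true) else (false, false, false)

lemma pt_mem : pt ∈ XX := by
  rintro n k hk ⟨h1, h2, h3⟩
  simp only [pt] at h1 h2 h3
  split_ifs at h1 h2 h3
  omega

/-- **Negative answer to Q1**: there is a topologically mixing subshift over `ℤ` (over a finite
alphabet) that is not surjunctive. -/
theorem result : ∃ (A : Type) (_ : Finite A) (_ : TopologicalSpace A) (_ : DiscreteTopology A)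
    (X : Set (ℤ → A)), IsSubshift X ∧ TopologicallyMixing X ∧ ¬ Surjunctive X := by
  refine ⟨Al, inferInstance, inferInstance, inferInstance, XX, isSubshift_XX, mixing_XX, ?_⟩
  intro h
  let τ : XX → XX := fun x => ⟨tau x.1, tau_mem x.2⟩
  have h1 : IsCellularAutomaton XX τ := by
    refine ⟨(continuous_tau.comp continuous_subtype_val).subtype_mk _, fun x y hxy => ?_⟩
    funext i
    simp only [τ, hxy, tau, shift]
    have e1 : i - 1 + 1 = i + 1 - 1 := by ring
    rw [e1]
  have h2 : Function.Injective τ := by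
    rintro ⟨x, hx⟩ ⟨y, hy⟩ hxy
    have hxy' : tau x = tau y := congrArg Subtype.val hxy
    refine Subtype.ext (funext fun i => ?_)
    have e1 : (x i).1 = (y i).1 := by
      have := congrArg Prod.fst (congrFun hxy' (i - 1))
      simpa [tau] using this
    have e2 : (x i).2.1 = (y i).2.1 := by
      have := congrArg (fun p : Al => p.2.1) (congrFun hxy' i)
      simpa [tau] using this
    have e3 : (x i).2.2 = (y i).2.2 := by
      have := congrArg (fun p : Al => p.2.2) (congrFun hxy' (i + 1))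
      simpa [tau] using this
    exact Prod.ext e1 (Prod.ext e2 e3)
  obtain ⟨⟨x, hx⟩, hxp⟩ := h τ h1 h2 ⟨pt, pt_mem⟩
  have hxp' : tau x = pt := congrArg Subtype.val hxp
  refine hx 0 1 le_rfl ⟨?_, ?_, ?_⟩
  · have := congrArg (fun p : Al => p.2.2) (congrFun hxp' 0)
    simpa [tau, pt] using this
  · have := congrArg (fun p : Al => p.2.1) (congrFun hxp' 0)
    simpa [tau, pt] using this
  · have := congrArg (fun p : Al => p.1) (congrFun hxp' 0)
    simpa [tau, pt] using this

end Pool.Agent.Results.MP_451208_an.MixingNotSurjunctive
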